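import Pool.Agent.H224R3.Kl5

set_option autoImplicit false

namespace Pool.Agent.Results.MP_fc5d3b_co.KlarnerComputable

open Filter Topology
open Pool.Agent.H224R3.Kl

/-- Let `t n` be the number of fixed `n`-ominoes (translation classes of connected `n`-element
sets of cells). The limit `lam` of `t(n)^(1/n)` exists, and the explicit sequence of rationals
`beta` is strictly decreasing, lies above `lam`, converges to `lam` with an explicit error bound,
and is computable (numerator and denominator are even primitive recursive). -/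
theorem result :
    (∃ lam : ℝ, Tendsto (fun n : ℕ => (t n : ℝ) ^ (1 / (n : ℝ))) atTop (𝓝 lam) ∧
      Tendsto (fun m : ℕ => (beta m : ℝ)) atTop (𝓝 lam) ∧
      (∀ m : ℕ, lam < beta m) ∧
      ∀ m : ℕ, (beta m : ℝ) - lam ≤
        40 * lam * (Real.log (m + 18) / (m + 18)) + 1 / 2 ^ m + 1 / (m + 1)) ∧
    StrictAnti beta ∧
    ∃ num den : ℕ → ℕ, Computable num ∧ Computable den ∧ Nat.Primrec num ∧ Nat.Primrec den ∧
      ∀ m, 0 < den m ∧ beta m = (num m : ℚ) / (den m : ℚ) := by
  refine ⟨⟨klarner, tendsto_klarner, beta_tendsto, klarner_lt_beta, beta_rate⟩, beta_anti, ?_⟩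
  have h2 : Primrec (fun m : ℕ => 2 ^ m) := ppow (Primrec.const 2) Primrec.id
  have hnum : Primrec (fun m : ℕ => nn m * (m + 1) + 2 ^ m) :=
    Primrec.nat_add.comp (Primrec.nat_mul.comp nn_prim Primrec.succ) h2
  have hden : Primrec (fun m : ℕ => 2 ^ m * (m + 1)) :=
    Primrec.nat_mul.comp h2 Primrec.succ
  refine ⟨_, _, hnum.to_comp, hden.to_comp, Primrec.nat_iff.1 hnum, Primrec.nat_iff.1 hden,
    fun m => ⟨by positivity, ?_⟩⟩
  unfold beta
  push_cast
  field_simp

end Pool.Agent.Results.MP_fc5d3b_co.KlarnerComputable
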